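import Pool.Agent.X136.TP.Main

set_option autoImplicit false

/-!
# Non-concavity of the critical curve for two-length oriented percolation on trees

Definitions (`Pool.Agent.X136.TP.Defs`): vertices are words over `Fin d`; `Conf d` records for each
vertex `w` whether the edge of length `1` ending at `w` and the edge of length `k` ending at `w` are
open; `Step`, `cluster`, `law`, `theta`, `qc` are the open edges, the cluster of the root, the
product law, the percolation probability `θ(p,q)` and the critical curve
`q_c(p) = inf {q ∈ (0,1) : θ(p,q) > 0}`.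
-/

namespace Pool.Agent.Results.MP_ea7c0e_pr.NotConcave

open Pool.Agent.X136.TP

/-- For every `d ≥ 2` and `k ≥ 2` the critical curve is not concave on `[0, δ]`, for every
`δ ∈ (0, 1]`. -/
theorem result : ∀ d k : ℕ, 2 ≤ d → 2 ≤ k → ∀ δ : ℝ, 0 < δ → δ ≤ 1 →
    ¬ ConcaveOn ℝ (Set.Icc 0 δ) (qc d k) := by
  intro d k hd hk δ hδ _
  exact not_concave hd hk hδ

end Pool.Agent.Results.MP_ea7c0e_pr.NotConcave
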